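import Pool.Agent.SqfBridge.Escape
import Pool.Agent.SqfBridge.Final

set_option autoImplicit false

/-! # Bridges between extendable ternary squarefree words

Every right-extendable and every left-extendable ternary word can be joined by infinitely many
words `z` such that `w z y` is squarefree. -/

namespace Pool.Agent.Results.MP_dfaab1_co.TernaryBridges

open Pool.Agent

/-- `w` is squarefree: no nonempty word `u` has its square `uu` as a factor of `w`. -/
def Squarefree (w : List (Fin 3)) : Prop := ∀ u : List (Fin 3), u ++ u <:+: w → u = []

/-- `w` is right-extendable: `wx` is squarefree for infinitely many words `x`. -/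
def RightExtendable (w : List (Fin 3)) : Prop :=
  {x : List (Fin 3) | Squarefree (w ++ x)}.Infinite

/-- `y` is left-extendable: `xy` is squarefree for infinitely many words `x`. -/
def LeftExtendable (y : List (Fin 3)) : Prop :=
  {x : List (Fin 3) | Squarefree (x ++ y)}.Infinite

theorem squarefree_iff (w : List (Fin 3)) :
    Squarefree w ↔ ∀ a u b : List (Fin 3), u ≠ [] → w ≠ a ++ u ++ u ++ b := by
  constructor
  · intro h a u b hu hw
    exact hu (h u ⟨a, b, by rw [hw]; simp only [List.append_assoc]⟩)
  · rintro h u ⟨a, b, hab⟩
    by_contra hu
    exact h a u b hu (by rw [← hab]; simp only [List.append_assoc])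

theorem exists_bridge (w y : List (Fin 3)) (hw : RightExtendable w) (hy : LeftExtendable y) :
    ∃ z : List (Fin 3), Squarefree (w ++ z ++ y) := by
  have h := SqfBridge.bridge_of_escape SqfBridge.escape w y
    (by simpa only [RightExtendable, squarefree_iff] using hw)
    (by simpa only [LeftExtendable, squarefree_iff] using hy)
  simpa only [squarefree_iff] using h

theorem step {w : List (Fin 3)} (hw : RightExtendable w) : ∃ a, RightExtendable (w ++ [a]) := by
  have h : SqfBridge.Ext w := by
    simpa only [SqfBridge.Ext, SqfBridge.Sqf, RightExtendable, squarefree_iff] using hw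
  obtain ⟨a, ha⟩ := h.step
  refine ⟨a, ?_⟩
  simpa only [SqfBridge.Ext, SqfBridge.Sqf, RightExtendable, squarefree_iff] using ha

theorem steps {w : List (Fin 3)} (hw : RightExtendable w) (n : ℕ) :
    ∃ x : List (Fin 3), x.length = n ∧ RightExtendable (w ++ x) := by
  induction n with
  | zero => exact ⟨[], rfl, by simpa using hw⟩
  | succ n ih =>
    obtain ⟨x, hx, h⟩ := ih
    obtain ⟨a, ha⟩ := step h
    exact ⟨x ++ [a], by simp [hx], by simpa using ha⟩

/-- For every right-extendable word `w` and every left-extendable word `y` over `{0,1,2}` there are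
infinitely many words `z` (in particular there is one) such that `wzy` is squarefree. -/
theorem result : ∀ w y : List (Fin 3), RightExtendable w → LeftExtendable y →
    {z : List (Fin 3) | Squarefree (w ++ z ++ y)}.Infinite := by
  intro w y hw hy
  refine Set.Infinite.of_image List.length ?_
  refine Set.infinite_of_not_bddAbove ?_
  rintro ⟨B, hB⟩
  obtain ⟨x, hx, hx2⟩ := steps hw (B + 1)
  obtain ⟨z, hz⟩ := exists_bridge (w ++ x) y hx2 hy
  have h1 : (x ++ z).length ∈ List.length '' {z : List (Fin 3) | Squarefree (w ++ z ++ y)} :=
    ⟨x ++ z, by
      show Squarefree (w ++ (x ++ z) ++ y)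
      rw [← List.append_assoc]
      exact hz, rfl⟩
  have h2 := hB h1
  rw [List.length_append, hx] at h2
  omega

end Pool.Agent.Results.MP_dfaab1_co.TernaryBridges
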